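import Pool.Agent.KS6_47.CR.S1
import Pool.Agent.KS6_47.CR.S2
import Pool.Agent.KS6_47.CR.S3
import Pool.Agent.KS6_47.CR.S4
import Pool.Agent.KS6_47.CR.P
import Pool.Agent.KS6_47.CR.P1
import Pool.Agent.KS6_47.CR.A1
import Pool.Agent.KS6_47.CR.A2
import Pool.Agent.KS6_47.CR.A3
import Pool.Agent.KS6_47.CR.N
import Pool.Agent.KS6_47.CR.K
import Pool.Agent.KS6_47.CR.R
import Pool.Agent.KS6_47.CR.C
import Pool.Agent.KS6_47.CR.AS
import Pool.Agent.KS6_47.CR.H
import Pool.Agent.KS6_47.CR.D2
import Pool.Agent.KS6_47.CR.SP2
import Pool.Agent.KS6_47.CR.GA2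
import Pool.Agent.KS6_47.CR.GB2
import Pool.Agent.KS6_47.CR.CO2
import Pool.Agent.KS6_47.CR.SE2
import Pool.Agent.KS6_47.CR.AP2
import Pool.Agent.KS6_47.CR.FI2

/-!
# Croft's first question: most lengths are missed, and the counterexamples are dense

Croft asked whether a measurable plane set `E` with `0 < |E| < ∞` is met by lines in every
sufficiently small length. The answer is negative in a strong sense: for every measurable `F` of
finite area and every `ε > 0` there is a measurable set `E` with `|E Δ F| < ε`, of positive finite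
area, such that the set of ALL positive numbers that are the length of the intersection of `E` with
some line is meagre. So the missed lengths are comeagre in `(0, ∞)`: they are dense, uncountable in
every interval, and they occur at all scales and not only near zero.

Outline. The geometric core (many stages of thin triangles, in windows which lie on every line
infinitely often) is carried out for an arbitrary initial polygonal set and with the lengths below
`i + 1` at stage `i`. A stage has a tolerance `η`: one open set of triples `(t, x, y)` of small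
volume serves all lines whose length at this stage is within `η` of `t`. So a fixed section of that
open set serves an interval of lengths; taking a dense sequence of lengths and suitable stages, one
null set `N` contains infinite length of every line whose intersection with `A` has its length in
a fixed comeagre set `T` of lengths. A transfinite selection gives `N' ⊆ N` with infinite outer
length on each of these lines and at most two points on every other line; `E = A ∪ N'`.
-/

set_option autoImplicit false

open MeasureTheory Set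
open scoped ENNReal

namespace Pool.Agent.Results.MP_ec7c5f_an.MeagreLengths

/-- The Euclidean plane. -/
abbrev Plane := EuclideanSpace ℝ (Fin 2)

/-- The line `L(θ, p)`, the set of `x` with `x · θ = p`; here `θ` is a unit vector. -/
def line (θ : Plane) (p : ℝ) : Set Plane := {x : Plane | inner ℝ x θ = p}

/-- The set of all positive real numbers that are the length `H^1 (L ∩ E)` for some line `L`. -/
def attained (E : Set Plane) : Set ℝ :=
  {t : ℝ | 0 < t ∧ ∃ (θ : Plane) (p : ℝ), ‖θ‖ = 1 ∧ μH[1] (line θ p ∩ E) = ENNReal.ofReal t}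

open Pool.Agent.KS6_47.CR in
/-- the statement in coordinates -/
theorem final2 : StmFinal2 := by
  have hlam : StmLam := S1.s1b
  have hxi : StmXi := S1.s1c
  have hlip : StmLip := S2.s2 hlam
  have husc : StmUsc := A2.a2 A1.a1
  have hrec : StmRec := R.r1 hlam hlip hxi (S4.s4 hxi) husc
  have hcost : StmCost := C.c1 hlip hxi S3.s3 A1.a1 N.n1
  have has : StmAS := AS.as1 hxi hrec hcost K.k1
  have hst : StmStage2 := SP2.sp1 S1.s1a hlam A3.a3 has P1.p1 P.p2 P.p1 hlip
  have hit : StmIter2 := GA2.ga hst P.p2
  have hcore : StmCore2 := CO2.co hit GB2.gb P.p2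
  exact FI2.fi hcore SE2.se H.h1

/-- **Croft's first question: the attained lengths can be meagre, and such sets are dense.** For
every measurable plane set `F` of finite area and every `ε > 0` there is a measurable set `E` with
`0 < |E| < ∞` and `|E Δ F| < ε` such that the set of all `t > 0` which are the value of
`H^1 (L ∩ E)` for some line `L` is meagre. In particular between any two nonnegative numbers there
is a `t` which is not the value of `H^1 (L ∩ E)` for any line `L`. -/
theorem result : ∀ F : Set Plane, NullMeasurableSet F volume → volume F < ∞ → ∀ ε : ℝ, 0 < ε →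
    ∃ E : Set Plane, NullMeasurableSet E volume ∧ 0 < volume E ∧ volume E < ∞ ∧
      volume (symmDiff E F) < ENNReal.ofReal ε ∧
      IsMeagre (attained E) ∧
      ∀ a b : ℝ, 0 ≤ a → a < b → ∃ t : ℝ, a < t ∧ t < b ∧
        ∀ (θ : Plane) (p : ℝ), ‖θ‖ = 1 → μH[1] (line θ p ∩ E) ≠ ENNReal.ofReal t := by
  open Pool.Agent.KS6_47.CR in
  intro F hF hFfin ε hε
  obtain ⟨hbij, hvol, hmeas⟩ := H.h3
  -- to coordinates
  obtain ⟨F₁, -, hF₁m, hF₁F⟩ := hF.exists_measurable_superset_ae_eq
  have htoPl : Measurable toPl := by
    have : Continuous toPl := by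
      unfold toPl
      refine (PiLp.continuous_toLp 2 _).comp ?_
      refine continuous_pi fun i => ?_
      fin_cases i
      · exact continuous_fst
      · exact continuous_snd
    exact this.measurable
  set F₂ : Set P2 := toPl ⁻¹' F₁ with hF₂
  have hF₂m : MeasurableSet F₂ := htoPl hF₁m
  have himg : toPl '' F₂ = F₁ := Set.image_preimage_eq _ hbij.surjective
  have hF₂fin : volume F₂ ≠ ⊤ := by
    rw [← hvol, himg, measure_congr hF₁F]
    exact hFfin.ne
  obtain ⟨A, hA, hAb, hAv⟩ := AP2.approx F₂ hF₂m hF₂fin (ε / 4) (by positivity)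
  -- add a small square
  set r : ℝ := min 1 (ε / 4) with hr
  have hr0 : 0 < r := lt_min one_pos (by positivity)
  have hrr : r * r ≤ ε / 4 := by
    have h1 : r ≤ 1 := min_le_left _ _
    have h2 : r ≤ ε / 4 := min_le_right _ _
    nlinarith
  set Q : Set P2 := Icc (0:ℝ) r ×ˢ Icc (0:ℝ) r with hQ
  have hQv : volume Q = ENNReal.ofReal (r * r) := by
    rw [hQ, Measure.volume_eq_prod, Measure.prod_prod, Real.volume_Icc, sub_zero,
      ← ENNReal.ofReal_mul hr0.le]
  have hQp : Pool.Agent.KS6_47.CR.Poly Q := AP2.rect _ _ _ _
  have hQb : Bornology.IsBounded Q := (isCompact_Icc.prod isCompact_Icc).isBounded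
  obtain ⟨E, hE, hAE, hEA, hmg⟩ := final2 (A ∪ Q) (ε / 4) (P.union hA hQp) (hAb.union hQb)
    (by positivity)
  have hmeagre : IsMeagre (attained (toPl '' E)) := by
    refine IsMeagre.mono ?_ hmg
    rintro t ⟨ht0, θ, p, hθ, heq⟩
    refine ⟨ht0, ?_⟩
    obtain ⟨s, z, hz, hset⟩ := H.h2 θ p hθ
    refine ⟨s, z, hz, ?_⟩
    have h1 : line θ p = toPl '' ln s z := hset
    rw [h1, ← image_inter hbij.injective, H.h1 s z E] at heq
    exact heq
  have hEm : NullMeasurableSet (toPl '' E) volume := by
    obtain ⟨E', -, hE'm, hE'E⟩ := hE.exists_measurable_superset_ae_eq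
    refine (hmeas E' hE'm).nullMeasurableSet.congr ?_
    rw [← measure_symmDiff_eq_zero_iff, ← Set.image_symmDiff hbij.injective, hvol,
      measure_symmDiff_eq_zero_iff]
    exact hE'E
  have hsd : volume (symmDiff E F₂) < ENNReal.ofReal ε := by
    have hsub : symmDiff E F₂ ⊆ (E \ (A ∪ Q)) ∪ (Q ∪ symmDiff F₂ A) := by
      rintro p (⟨h1, h2⟩ | ⟨h1, h2⟩)
      · by_cases h3 : p ∈ A ∪ Q
        · rcases h3 with h3 | h3
          · exact Or.inr (Or.inr (Or.inr ⟨h3, h2⟩))
          · exact Or.inr (Or.inl h3)
        · exact Or.inl ⟨h1, h3⟩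
      · refine Or.inr (Or.inr (Or.inl ⟨h1, fun h3 => h2 (hAE (Or.inl h3))⟩))
    calc volume (symmDiff E F₂) ≤ volume (E \ (A ∪ Q)) + (volume Q + volume (symmDiff F₂ A)) :=
          (measure_mono hsub).trans ((measure_union_le _ _).trans
            (add_le_add le_rfl (measure_union_le _ _)))
      _ < ENNReal.ofReal (ε / 4) + (ENNReal.ofReal (ε / 4) + ENNReal.ofReal (ε / 4)) := by
          apply ENNReal.add_lt_add_of_le_of_lt (ne_top_of_le_ne_top ENNReal.ofReal_ne_top hEA) hEA
          apply ENNReal.add_lt_add_of_le_of_lt _ _ hAv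
          · rw [hQv]
            exact ENNReal.ofReal_ne_top
          · rw [hQv]
            exact ENNReal.ofReal_le_ofReal hrr
      _ ≤ ENNReal.ofReal ε := by
          rw [← ENNReal.ofReal_add (by positivity) (by positivity),
            ← ENNReal.ofReal_add (by positivity) (by positivity)]
          apply ENNReal.ofReal_le_ofReal
          linarith
  have hsd' : volume (symmDiff (toPl '' E) F) < ENNReal.ofReal ε := by
    have h1 : volume (symmDiff (toPl '' E) F) = volume (symmDiff (toPl '' E) F₁) :=
      measure_congr (Filter.EventuallyEq.symmDiff Filter.EventuallyEq.rfl hF₁F.symm)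
    rw [h1, ← himg, ← Set.image_symmDiff hbij.injective, hvol]
    exact hsd
  refine ⟨toPl '' E, hEm, ?_, ?_, hsd', hmeagre, ?_⟩
  · rw [hvol]
    calc 0 < volume Q := by rw [hQv]; exact ENNReal.ofReal_pos.2 (by positivity)
      _ ≤ volume E := measure_mono (subset_union_right.trans hAE)
  · have h1 : toPl '' E ⊆ symmDiff (toPl '' E) F ∪ F := by
      intro x hx
      by_cases hxF : x ∈ F
      · exact Or.inr hxF
      · exact Or.inl (Or.inl ⟨hx, hxF⟩)
    calc volume (toPl '' E) ≤ volume (symmDiff (toPl '' E) F) + volume F :=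
          (measure_mono h1).trans (measure_union_le _ _)
      _ < ⊤ := ENNReal.add_lt_top.2 ⟨hsd'.trans ENNReal.ofReal_lt_top, hFfin⟩
  · intro a b ha hab
    have hd : Dense (attained (toPl '' E))ᶜ := dense_of_mem_residual hmeagre
    obtain ⟨t, ht1, ht2⟩ := hd.exists_mem_open isOpen_Ioo (nonempty_Ioo.2 hab)
    refine ⟨t, ht2.1, ht2.2, fun θ p hθ heq => ht1 ⟨by linarith [ht2.1], θ, p, hθ, heq⟩⟩

end Pool.Agent.Results.MP_ec7c5f_an.MeagreLengths
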